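import Pool.Agent.Torelli.E.E0
import Pool.Agent.Torelli.FPart.Ma

/-!
# Torelli / E / FInst : the input of part E from part F
-/

set_option autoImplicit false

namespace Pool.Agent.Torelli

theorem fIn (s h : ℕ) : FIn s (h + 1) where
  push_mem := fun v hv => Ma_normal_form.2 ⟨v, hv, 0, 1, one_mem _, by simp⟩
  kap_mul := fun u hu v hv hu1 _ => kap_mul (h := h) hu hv hu1
  kap_conj := fun γ hγ u hu hu1 => kap_conj (h := h) hγ hu hu1
  kap_push := fun v hv u hu hu1 => kap_conj_push (h := h) hu hv hu1
  kap_H := fun _ => kap_H s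
  act_push := fun u hu => by
    have hu' : u ∈ FS (s + 1) h := hu
    have h1 := act_normal_form hu' 0 (one_mem (M (s + 1) h))
    rw [zpow_zero, mul_one, mul_one, add_zero] at h1
    exact h1
  Ma_nf := fun m hm => Ma_normal_form.1 hm

end Pool.Agent.Torelli
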