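import Pool.Agent.Torelli.E.Lift
import Pool.Agent.Torelli.E.FInst

/-!
# Torelli / E / Main : `Tor s h = JJ s h`
-/

set_option autoImplicit false

namespace Pool.Agent.Torelli

variable {s h : ℕ}

theorem omV_alt (v : ↥(Vs s h)) : omV s h v v = 0 := om_self v.1

theorem ea_prim' (s h : ℕ) :
    D.prim (omV s (h + 1)) ⟨ea s, ea_mem_Vs (s := s) (h := h + 1) le_rfl (by omega)⟩ :=
  ⟨⟨eb s, eb_mem_Vs (s := s) (h := h + 1) le_rfl (by omega)⟩, by
    rw [omV_apply, om_ea_eb, if_pos rfl]⟩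

theorem omV_div (s h : ℕ) (x : ↥(Vs s (h + 1))) (_hx : x ≠ 0) :
    ∃ (c : ℤ) (y : ↥(Vs s (h + 1))), x = c • y ∧ D.prim (omV s (h + 1)) y := by
  obtain ⟨θ, hθ, c, hc⟩ := SP_NF h s x.1 x.2
  have h1 : x.1 = c • act θ⁻¹ (ea s) := by
    rw [← map_zsmul, ← hc, act_inv_act]
  refine ⟨c, ⟨act θ⁻¹ (ea s), M_Vs (inv_mem hθ) (ea_mem_Vs le_rfl (by omega))⟩, ?_, ?_⟩
  · apply Subtype.ext
    rw [h1]; rfl
  · refine ⟨⟨act θ⁻¹ (eb s), M_Vs (inv_mem hθ) (eb_mem_Vs le_rfl (by omega))⟩, ?_⟩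
    rw [omV_apply]
    change om (act θ⁻¹ (ea s)) (act θ⁻¹ (eb s)) = 1
    rw [M_om (inv_mem hθ), om_ea_eb, if_pos rfl]

/-- the action on `Vs s h` -/
noncomputable def actV (θ : MulAut F) (hθ : θ ∈ M s h) (v : ↥(Vs s h)) : ↥(Vs s h) :=
  ⟨act θ v.1, M_Vs hθ v.2⟩

theorem actV_prim {θ : MulAut F} (hθ : θ ∈ M s h) {v : ↥(Vs s h)} (hv : D.prim (omV s h) v) :
    D.prim (omV s h) (actV θ hθ v) := by
  obtain ⟨w', hw'⟩ := hv
  refine ⟨actV θ hθ w', ?_⟩
  rw [omV_apply] at hw' ⊢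
  change om (act θ v.1) (act θ w'.1) = 1
  rw [M_om hθ, hw']

theorem actV_E1 {θ : MulAut F} (hθ : θ ∈ M s h) {v u : ↥(Vs s h)} (hv : D.E1 (omV s h) v u) :
    D.E1 (omV s h) (actV θ hθ v) (actV θ hθ u) := by
  unfold D.E1 at hv ⊢
  rw [omV_apply] at hv ⊢
  change om (act θ v.1) (act θ u.1) = 1 ∨ om (act θ v.1) (act θ u.1) = -1
  rw [M_om hθ]; exact hv

/-- left translation of cosets -/
def trX (θ : MulAut F) (x : XX s h) : XX s h := θ • x

theorem trX_mk (θ ψ : MulAut F) : trX θ (ψ : XX s h) = ((θ * ψ : MulAut F) : XX s h) := rfl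

theorem trX_ov {θ : MulAut F} (hθ : θ ∈ M s (h + 1)) {x : XX s h} {v : ↥(Vs s (h + 1))}
    (hx : ov s h x v) : ov s h (trX θ x) (actV θ hθ v) := by
  obtain ⟨ψ, hψ, rfl, hv⟩ := hx
  refine ⟨θ * ψ, mul_mem hθ hψ, rfl, ?_⟩
  change act θ v.1 = _ ∨ act θ v.1 = _
  rw [act_mul]
  rcases hv with hv | hv
  · left; rw [hv]
  · right; rw [hv, map_neg]

theorem trX_adj {θ : MulAut F} (hθ : θ ∈ M s (h + 1)) {x y : XX s h} (hxy : adj s h x y) :
    adj s h (trX θ x) (trX θ y) := by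
  obtain ⟨ψ, hψ, rfl, rfl⟩ := hxy
  exact ⟨θ * ψ, mul_mem hθ hψ, rfl, by rw [trX_mk, mul_assoc]⟩

/-- `M s (h+1)` is generated by `Nn s h` and `w s` -/
theorem M_le_of_Nn {K : Subgroup (MulAut F)} (h1 : Nn s h ≤ K) (h2 : w s ∈ K) :
    M s (h + 1) ≤ K := by
  apply M_le
  · intro i hi1 hi2
    by_cases hi : i = s
    · rw [hi]; exact h1 Ta_mem_Nn
    · exact h1 (M_le_Nn (Ta_mem_M (by omega) (by omega)))
  · intro i hi1 hi2
    by_cases hi : i = s
    · have e : Tb s = (w s)⁻¹ * Ta s := by unfold w; group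
      rw [hi, e]; exact mul_mem (inv_mem h2) (h1 Ta_mem_Nn)
    · exact h1 (M_le_Nn (Tb_mem_M (by omega) (by omega)))
  · intro i hi1 hi2
    by_cases hi : i = s
    · rw [hi]; exact h1 (Ma_le_Nn (P_mem_Ma (by omega)))
    · exact h1 (M_le_Nn (P_mem_M (by omega) (by omega)))

/-- induction step of part E -/
theorem Tor_le_JJ_step (hF : FIn s (h + 1)) (hind : Tor (s + 1) h ≤ JJ s (h + 1)) :
    Tor s (h + 1) ≤ JJ s (h + 1) := by
  set e : ↥(Vs s (h + 1)) := ⟨ea s, ea_mem_Vs (s := s) (h := h + 1) le_rfl (by omega)⟩ with he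
  have hep : D.prim (omV s (h + 1)) e := ea_prim' s h
  obtain ⟨σ, hσe, hσ1, hσ2⟩ := D.section_exists (omV_alt (s := s) (h := h + 1)) (omV_div s h)
    (liftData hF) hep (x0 := ((1 : MulAut F) : XX s h))
    (show ov s h _ _ from ov_of (one_mem _) (Or.inl (by rw [act_one])))
  have hov : ∀ v, D.prim (omV s (h + 1)) v → (liftData hF).ov (σ v) v := fun v hv => (hσ1 v hv).1
  -- the stabiliser of the section
  have key : ∀ θ (hθ : θ ∈ M s (h + 1)), (∃ v0, D.prim (omV s (h + 1)) v0 ∧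
      trX θ (σ (actV θ⁻¹ (inv_mem hθ) v0)) = σ v0) →
      ∀ v, D.prim (omV s (h + 1)) v → trX θ (σ (actV θ⁻¹ (inv_mem hθ) v)) = σ v := by
    rintro θ hθ ⟨v0, hv0, h0⟩
    have hact : ∀ v : ↥(Vs s (h + 1)), actV θ hθ (actV θ⁻¹ (inv_mem hθ) v) = v := fun v =>
      Subtype.ext (act_act_inv θ v.1)
    refine D.section_unique (omV_alt (s := s) (h := h + 1)) (liftData hF)
      (σ := fun v => trX θ (σ (actV θ⁻¹ (inv_mem hθ) v))) (σ' := σ) ?_ hov ?_ hσ2 hv0 h0
    · intro v hv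
      have h1 := trX_ov hθ (hov _ (actV_prim (inv_mem hθ) hv))
      rw [hact] at h1
      exact h1
    · intro v u hvu
      exact trX_adj hθ (hσ2 _ _ (actV_E1 (inv_mem hθ) hvu))
  -- the set of good elements is a subgroup
  have hK : ∀ θ ∈ M s (h + 1), ∀ (hθ : θ ∈ M s (h + 1)), ∀ v, D.prim (omV s (h + 1)) v →
      σ (actV θ hθ v) = trX θ (σ v) := by
    let K : Subgroup (MulAut F) :=
      { carrier := {θ | ∃ hθ : θ ∈ M s (h + 1), ∀ v, D.prim (omV s (h + 1)) v →
          σ (actV θ hθ v) = trX θ (σ v)}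
        one_mem' := ⟨one_mem _, fun v hv => by
          have : actV 1 (one_mem (M s (h + 1))) v = v := Subtype.ext (act_one v.1)
          rw [this]; exact (one_smul _ _).symm⟩
        mul_mem' := by
          rintro θ ψ ⟨hθ, h1⟩ ⟨hψ, h2⟩
          refine ⟨mul_mem hθ hψ, fun v hv => ?_⟩
          have : actV (θ * ψ) (mul_mem hθ hψ) v = actV θ hθ (actV ψ hψ v) :=
            Subtype.ext (act_mul θ ψ v.1)
          rw [this, h1 _ (actV_prim hψ hv), h2 v hv]
          exact (mul_smul θ ψ (σ v)).symm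
        inv_mem' := by
          rintro θ ⟨hθ, h1⟩
          refine ⟨inv_mem hθ, fun v hv => ?_⟩
          have h2 := h1 _ (actV_prim (inv_mem hθ) hv)
          have h3 : actV θ hθ (actV θ⁻¹ (inv_mem hθ) v) = v := Subtype.ext (act_act_inv θ v.1)
          rw [h3] at h2
          rw [h2]
          exact (inv_smul_smul θ _).symm }
    have hMK : M s (h + 1) ≤ K := by
      -- from the key: translate
      have conv : ∀ θ (hθ : θ ∈ M s (h + 1)), (∃ v0, D.prim (omV s (h + 1)) v0 ∧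
          trX θ (σ (actV θ⁻¹ (inv_mem hθ) v0)) = σ v0) → θ ∈ K := by
        intro θ hθ h0
        refine ⟨hθ, fun v hv => ?_⟩
        have h1 := key θ hθ h0 _ (actV_prim hθ hv)
        have h2 : actV θ⁻¹ (inv_mem hθ) (actV θ hθ v) = v := Subtype.ext (act_inv_act θ v.1)
        rw [h2] at h1
        exact h1.symm
      apply M_le_of_Nn
      · intro n hn
        have hnM := Nn_le_M hn
        apply conv n hnM
        refine ⟨e, hep, ?_⟩
        have h1 : σ (actV n⁻¹ (inv_mem hnM) e) = σ e := by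
          rcases Nn_ea (inv_mem hn) with h2 | h2
          · have : actV n⁻¹ (inv_mem hnM) e = e := Subtype.ext h2
            rw [this]
          · have : actV n⁻¹ (inv_mem hnM) e = -e := Subtype.ext h2
            rw [this, (hσ1 e hep).2]
        rw [h1, hσe]
        have h3 : ((n * 1 : MulAut F) : XX s h) = ((1 : MulAut F) : XX s h) := by
          rw [QuotientGroup.eq]; simpa using hn
        exact h3
      · have hw := w_mem_M' s h
        apply conv (w s) hw
        -- at the vector w e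
        refine ⟨actV (w s) hw e, actV_prim hw hep, ?_⟩
        have h2 : actV (w s)⁻¹ (inv_mem hw) (actV (w s) hw e) = e :=
          Subtype.ext (act_inv_act (w s) (ea s))
        rw [h2, hσe]
        have hE : D.E1 (omV s (h + 1)) e (actV (w s) hw e) := by
          right
          rw [omV_apply]
          change om (ea s) (act (w s) (ea s)) = -1
          rw [act_w_ea, map_neg, om_ea_eb, if_pos rfl]
        have h3 := hσ2 _ _ hE
        rw [hσe] at h3
        refine lift_unique hF (x := ((1 : MulAut F) : XX s h)) (u := actV (w s) hw e) ?_ h3 ?_ ?_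
        · exact ⟨1, one_mem _, rfl, by rw [trX_mk, one_mul, mul_one]⟩
        · refine ⟨w s, hw, by rw [trX_mk, mul_one], Or.inl rfl⟩
        · exact hov _ (actV_prim hw hep)
    intro θ hθ hθ'
    obtain ⟨h1, h2⟩ := hMK hθ
    exact h2
  -- conclusion
  intro θ hθ
  have hM := hθ.1
  have h1 := hK θ hM hM e hep
  have h2 : actV θ hM e = e := Subtype.ext (IA_act hθ.2 (ea s))
  rw [h2, hσe, trX_mk, mul_one, QuotientGroup.eq] at h1
  have h3 : θ ∈ Nn s h := by simpa using h1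
  exact Nn_Tor hF hind h3 hθ.2

/-- `M s 0` is trivial -/
theorem M_zero (s : ℕ) : M s 0 = ⊥ := by
  rw [eq_bot_iff]
  exact M_le (fun i h1 h2 => absurd h2 (by omega)) (fun i h1 h2 => absurd h2 (by omega))
    (fun i h1 h2 => absurd h2 (by omega))

/-- **PART E**: `Tor s h = JJ s h` for all `s` and all `h ≥ 1`. -/
theorem Tor_eq_JJ : ∀ (h s : ℕ), 1 ≤ h → Tor s h = JJ s h := by
  intro h
  induction h with
  | zero => intro s hs; omega
  | succ h ih =>
    intro s _
    refine le_antisymm (Tor_le_JJ_step (fIn s h) ?_) (JJ_le_Tor (by omega))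
    by_cases h0 : h = 0
    · subst h0
      intro x hx
      have h1 : x ∈ M (s + 1) 0 := hx.1
      rw [M_zero, Subgroup.mem_bot] at h1
      rw [h1]; exact one_mem _
    · rw [ih (s + 1) (by omega)]
      have := JJ_succ_le (s := s) (h := h + 1) (by omega)
      exact this

end Pool.Agent.Torelli
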