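import Pool.Agent.Torelli.E.JJ

/-!
# Torelli / E / Comm : the commutator subgroup of `FS s h`

`M_comm_le` : a subgroup `K` of `F`, normalised by `FS s h`, invariant under `M s h`, containing
`H s` contains all `u ∈ FS s h` with `cl u = 1`.
-/

set_option autoImplicit false

open scoped commutatorElement

namespace Pool.Agent.Torelli

/-- retraction of `F` onto `FS s h` -/
def retr (s h : ℕ) : F →* F :=
  FreeGroup.lift fun n => if 2 * s ≤ n ∧ n < 2 * (s + h) then FreeGroup.of n else 1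

theorem retr_of {s h n : ℕ} (h1 : 2 * s ≤ n) (h2 : n < 2 * (s + h)) :
    retr s h (FreeGroup.of n) = FreeGroup.of n := by
  simp [retr, h1, h2]

theorem retr_fix {s h : ℕ} {x : F} (hx : x ∈ FS s h) : retr s h x = x := by
  have : FS s h ≤ MonoidHom.eqLocus (retr s h) (MonoidHom.id F) := by
    unfold FS
    rw [Subgroup.closure_le]
    rintro x ⟨n, hn1, hn2, rfl⟩
    exact retr_of hn1 hn2
  exact this hx

theorem retr_mem (s h : ℕ) (x : F) : retr s h x ∈ FS s h := by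
  induction x using FreeGroup.induction_on with
  | C1 => rw [map_one]; exact one_mem _
  | of n =>
    by_cases hn : 2 * s ≤ n ∧ n < 2 * (s + h)
    · rw [retr_of hn.1 hn.2]; exact of_mem_FS hn.1 hn.2
    · have : retr s h (FreeGroup.of n) = 1 := by simp [retr, hn]
      change retr s h (FreeGroup.of n) ∈ _
      rw [this]; exact one_mem _
  | inv_of n ih => rw [map_inv]; exact inv_mem ih
  | mul x y hx hy => rw [map_mul]; exact mul_mem hx hy

/-- an element of `FS s h` with trivial class is in the commutator subgroup of `FS s h` -/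
theorem mem_comm_FS {s h : ℕ} {u : F} (hu : u ∈ FS s h) (hc : cl u = 1) :
    u ∈ ⁅FS s h, FS s h⁆ := by
  rw [cl_eq_one_iff, commutator_def] at hc
  have h1 : retr s h u ∈ (⁅(⊤ : Subgroup F), (⊤ : Subgroup F)⁆).map (retr s h) :=
    Subgroup.mem_map_of_mem _ hc
  rw [Subgroup.map_commutator, retr_fix hu] at h1
  have h2 : (⊤ : Subgroup F).map (retr s h) ≤ FS s h := by
    rintro x ⟨y, -, rfl⟩
    exact retr_mem s h y
  exact Subgroup.commutator_mono h2 h2 h1

/-- generic: commutators of generators suffice -/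
theorem comm_le_of_gen {s h : ℕ} {K : Subgroup F} (hK : ∀ v ∈ FS s h, ∀ u ∈ K, v * u * v⁻¹ ∈ K)
    (hz : ∀ m n, 2 * s ≤ m → m < 2 * (s + h) → 2 * s ≤ n → n < 2 * (s + h) →
      ⁅(FreeGroup.of m : F), FreeGroup.of n⁆ ∈ K) : ⁅FS s h, FS s h⁆ ≤ K := by
  have h1 : ∀ n, 2 * s ≤ n → n < 2 * (s + h) → ∀ x ∈ FS s h, ⁅x, (FreeGroup.of n : F)⁆ ∈ K := by
    intro n n1 n2 x hx
    unfold FS at hx
    induction hx using Subgroup.closure_induction with
    | mem x hx => obtain ⟨m, m1, m2, rfl⟩ := hx; exact hz m n m1 m2 n1 n2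
    | one => rw [commutatorElement_one_left]; exact one_mem _
    | mul x y hx hy ihx ihy =>
      have e : ⁅x * y, (FreeGroup.of n : F)⁆ =
          x * ⁅y, (FreeGroup.of n : F)⁆ * x⁻¹ * ⁅x, (FreeGroup.of n : F)⁆ := by
        simp only [commutatorElement_def]; group
      rw [e]; exact mul_mem (hK _ hx _ ihy) ihx
    | inv x hx ihx =>
      have e : ⁅x⁻¹, (FreeGroup.of n : F)⁆ =
          x⁻¹ * (⁅x, (FreeGroup.of n : F)⁆)⁻¹ * (x⁻¹)⁻¹ := by
        simp only [commutatorElement_def]; group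
      rw [e]; exact hK _ (inv_mem hx) _ (inv_mem ihx)
  rw [Subgroup.commutator_le]
  intro x hx y hy
  unfold FS at hy
  induction hy using Subgroup.closure_induction with
  | mem y hy => obtain ⟨m, m1, m2, rfl⟩ := hy; exact h1 m m1 m2 x hx
  | one => rw [commutatorElement_one_right]; exact one_mem _
  | mul y z hy hz ihy ihz =>
    have e : ⁅x, y * z⁆ = ⁅x, y⁆ * (y * ⁅x, z⁆ * y⁻¹) := by
      simp only [commutatorElement_def]; group
    rw [e]; exact mul_mem ihy (hK _ hy _ ihz)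
  | inv y hy ihy =>
    have e : ⁅x, y⁻¹⁆ = y⁻¹ * (⁅x, y⁆)⁻¹ * (y⁻¹)⁻¹ := by
      simp only [commutatorElement_def]; group
    rw [e]; exact hK _ (inv_mem hy) _ (inv_mem ihy)

section MInv
variable {s h : ℕ} {K : Subgroup F} (hK : ∀ v ∈ FS s h, ∀ u ∈ K, v * u * v⁻¹ ∈ K)
  (hM : ∀ γ ∈ M s h, ∀ u ∈ K, γ u ∈ K) (hH : 1 ≤ h → H s ∈ K)

include hK

theorem comm_symm {x y : F} (hxy : ⁅x, y⁆ ∈ K) : ⁅y, x⁆ ∈ K := by
  rw [← commutatorElement_inv]; exact inv_mem hxy

theorem comm_mul_left {x y z : F} (hx : x ∈ FS s h) (h1 : ⁅x, z⁆ ∈ K) (h2 : ⁅y, z⁆ ∈ K) :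
    ⁅x * y, z⁆ ∈ K := by
  have e : ⁅x * y, z⁆ = x * ⁅y, z⁆ * x⁻¹ * ⁅x, z⁆ := by
    simp only [commutatorElement_def]; group
  rw [e]; exact mul_mem (hK _ hx _ h2) h1

theorem comm_inv_left {x z : F} (hx : x ∈ FS s h) (h1 : ⁅x, z⁆ ∈ K) : ⁅x⁻¹, z⁆ ∈ K := by
  have e : ⁅x⁻¹, z⁆ = x⁻¹ * (⁅x, z⁆)⁻¹ * (x⁻¹)⁻¹ := by
    simp only [commutatorElement_def]; group
  rw [e]; exact hK _ (inv_mem hx) _ (inv_mem h1)

/-- cancel on the left: `[x y, z] ∈ K`, `[x, z] ∈ K` give `[y, z] ∈ K` -/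
theorem comm_cancel_left {x y z : F} (hx : x ∈ FS s h) (h1 : ⁅x * y, z⁆ ∈ K)
    (h2 : ⁅x, z⁆ ∈ K) : ⁅y, z⁆ ∈ K := by
  have := comm_mul_left hK (inv_mem hx) (comm_inv_left hK hx h2) h1
  rwa [inv_mul_cancel_left] at this

include hM hH

theorem comm_HH {i : ℕ} (h1 : s ≤ i) (h2 : i < s + h) : ⁅a i, b i⁆ ∈ K := by
  obtain ⟨k, rfl⟩ := Nat.exists_eq_add_of_le h1
  have : H (s + k) ∈ K := by
    induction k with
    | zero => exact hH (by omega)
    | succ k ih =>
      have ih' := ih (by omega) (by omega)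
      have := hM (S (s + k)) (M_mono (by omega) (by omega) (S_mem (s + k) 2 le_rfl)) _ ih'
      have e : S (s + k) (H (s + k)) = H (s + (k + 1)) := by
        simp only [H, map_mul, map_inv, S_a0, S_b0]; rfl
      rwa [e] at this
  rwa [commutatorElement_def]

theorem comm_aa_adj {i : ℕ} (h1 : s ≤ i) (h2 : i + 1 < s + h) : ⁅a i, a (i + 1)⁆ ∈ K := by
  have h3 := hM (P i) (P_mem_M h1 h2) _ (comm_HH hK hM hH h1 (show i < s + h by omega))
  rw [map_commutatorElement, P_a, P_b] at h3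
  have hx := a_mem_FS (show s ≤ i + 1 by omega) h2
  have hb := b_mem_FS h1 (show i < s + h by omega)
  have ha := a_mem_FS h1 (show i < s + h by omega)
  have h4 : ⁅b i, a i⁆ ∈ K := comm_symm hK (comm_HH hK hM hH h1 (show i < s + h by omega))
  have h5 : ⁅(a (i + 1))⁻¹ * b i, a i⁆ ∈ K := comm_symm hK h3
  -- [x⁻¹ b, a] = x⁻¹[b,a]x [x⁻¹,a]
  have e : ⁅(a (i + 1))⁻¹, a i⁆ =
      ((a (i + 1))⁻¹ * ⁅b i, a i⁆ * ((a (i + 1))⁻¹)⁻¹)⁻¹ * ⁅(a (i + 1))⁻¹ * b i, a i⁆ := by
    simp only [commutatorElement_def]; group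
  have h6 : ⁅(a (i + 1))⁻¹, a i⁆ ∈ K := by
    rw [e]; exact mul_mem (inv_mem (hK _ (inv_mem hx) _ h4)) h5
  have h7 := comm_inv_left hK (inv_mem hx) h6
  rw [inv_inv] at h7
  exact comm_symm hK h7

theorem comm_aa {i j : ℕ} (h1 : s ≤ i) (hij : i < j) (h2 : j < s + h) : ⁅a i, a j⁆ ∈ K := by
  obtain ⟨k, rfl⟩ := Nat.exists_eq_add_of_lt hij
  induction k with
  | zero => exact comm_aa_adj hK hM hH h1 h2
  | succ k ih =>
    have ih' := ih (by omega) (by omega)
    have hS : S (i + k + 1) ∈ M s h := M_mono (by omega) (by omega) (S_mem (i + k + 1) 2 le_rfl)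
    have := hM _ hS _ ih'
    have e1 : S (i + k + 1) (a i) = a i :=
      M_fix_a (S_mem (i + k + 1) 2 le_rfl) (Or.inl (by omega))
    rw [map_commutatorElement, e1, S_a0] at this
    exact this

theorem comm_ba {i j : ℕ} (h1 : s ≤ i) (hij : i < j) (h2 : j < s + h) : ⁅b i, a j⁆ ∈ K := by
  have h3 := comm_aa hK hM hH h1 hij h2
  have h4 := hM (Tb i) (Tb_mem_M h1 (by omega)) _ h3
  rw [map_commutatorElement, Tb_a, Tb_a_ne (by omega)] at h4
  exact comm_cancel_left hK (a_mem_FS h1 (by omega)) h4 h3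

theorem comm_ab {i j : ℕ} (h1 : s ≤ i) (hij : i < j) (h2 : j < s + h) : ⁅a i, b j⁆ ∈ K := by
  have h3 := comm_aa hK hM hH h1 hij h2
  have h4 := hM (Tb j) (Tb_mem_M (by omega) (by omega)) _ h3
  rw [map_commutatorElement, Tb_a, Tb_a_ne (by omega)] at h4
  exact comm_symm hK (comm_cancel_left hK (a_mem_FS (by omega) h2) (comm_symm hK h4)
    (comm_symm hK h3))

theorem comm_bb {i j : ℕ} (h1 : s ≤ i) (hij : i < j) (h2 : j < s + h) : ⁅b i, b j⁆ ∈ K := by
  have h3 := comm_ab hK hM hH h1 hij h2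
  have h4 := hM (Tb i) (Tb_mem_M h1 (by omega)) _ h3
  rw [map_commutatorElement, Tb_a, Tb_b] at h4
  exact comm_cancel_left hK (a_mem_FS h1 (by omega)) h4 h3

/-- the main statement of this file -/
theorem M_comm_le {u : F} (hu : u ∈ FS s h) (hc : cl u = 1) : u ∈ K := by
  refine comm_le_of_gen hK ?_ (mem_comm_FS hu hc)
  intro m n m1 m2 n1 n2
  have key : ∀ m n, 2 * s ≤ m → m < n → n < 2 * (s + h) →
      ⁅(FreeGroup.of m : F), FreeGroup.of n⁆ ∈ K := by
    intro m n m1 mn n2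
    rcases Nat.even_or_odd' m with ⟨i, hi | hi⟩ <;> rcases Nat.even_or_odd' n with ⟨j, hj | hj⟩
    · subst hi hj
      exact comm_aa hK hM hH (by omega) (by omega) (by omega)
    · subst hi hj
      by_cases hij : i = j
      · subst hij; exact comm_HH hK hM hH (by omega) (by omega)
      · exact comm_ab hK hM hH (by omega) (by omega) (by omega)
    · subst hi hj
      exact comm_ba hK hM hH (by omega) (by omega) (by omega)
    · subst hi hj
      exact comm_bb hK hM hH (by omega) (by omega) (by omega)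
  rcases lt_trichotomy m n with hmn | hmn | hmn
  · exact key m n m1 hmn n2
  · subst hmn; rw [commutatorElement_self]; exact one_mem _
  · exact comm_symm hK (key n m n1 hmn m2)

end MInv

end Pool.Agent.Torelli
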