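import Pool.Agent.Torelli.E.Comm

/-!
# Torelli / E / E0 : `Ka s h ≤ JJ s h`

The input from part F is collected in the structure `FIn s h`.
-/

set_option autoImplicit false

open scoped commutatorElement

namespace Pool.Agent.Torelli

/-- What part E needs from part F. -/
structure FIn (s h : ℕ) : Prop where
  push_mem : ∀ v ∈ FS (s + 1) (h - 1), push s v ∈ Ma s h
  kap_mul : ∀ u ∈ FS (s + 1) (h - 1), ∀ v ∈ FS (s + 1) (h - 1), cl u = 1 → cl v = 1 →
    kap s (u * v) = kap s u * kap s v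
  kap_conj : ∀ γ ∈ M (s + 1) (h - 1), ∀ u ∈ FS (s + 1) (h - 1), cl u = 1 →
    γ * kap s u * γ⁻¹ = kap s (γ u)
  kap_push : ∀ v ∈ FS (s + 1) (h - 1), ∀ u ∈ FS (s + 1) (h - 1), cl u = 1 →
    push s v * kap s u * (push s v)⁻¹ = kap s (v * u * v⁻¹)
  kap_H : 2 ≤ h → kap s (H (s + 1)) = KA s * TD (s + 1)
  act_push : ∀ u ∈ FS (s + 1) (h - 1), act (push s u) (eb s) = eb s - clv u + nu s u • ea s
  Ma_nf : ∀ m ∈ Ma s h, ∃ u ∈ FS (s + 1) (h - 1), ∃ k : ℤ, ∃ γ ∈ M (s + 1) (h - 1),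
    m = push s u * Ta s ^ k * γ

variable {s h : ℕ}

theorem FIn.kap_one (hF : FIn s h) : kap s 1 = 1 := by
  have := hF.kap_mul 1 (one_mem _) 1 (one_mem _) (map_one _) (map_one _)
  rw [mul_one] at this
  exact left_eq_mul.1 this

theorem FIn.kap_inv (hF : FIn s h) {u : F} (hu : u ∈ FS (s + 1) (h - 1)) (hc : cl u = 1) :
    kap s u⁻¹ = (kap s u)⁻¹ := by
  have hc' : cl u⁻¹ = 1 := by rw [map_inv, hc, inv_one]
  have := hF.kap_mul u hu u⁻¹ (inv_mem hu) hc hc'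
  rw [mul_inv_cancel, hF.kap_one] at this
  exact (inv_eq_of_mul_eq_one_right this.symm).symm

/-- the elements `u` with `kap s u ∈ JJ s h` -/
def KJ (hF : FIn s h) : Subgroup F where
  carrier := {u | u ∈ FS (s + 1) (h - 1) ∧ cl u = 1 ∧ kap s u ∈ JJ s h}
  one_mem' := ⟨one_mem _, map_one _, by rw [hF.kap_one]; exact one_mem _⟩
  mul_mem' := fun {u v} hu hv => ⟨mul_mem hu.1 hv.1, by rw [map_mul, hu.2.1, hv.2.1, one_mul], by
    rw [hF.kap_mul u hu.1 v hv.1 hu.2.1 hv.2.1]; exact mul_mem hu.2.2 hv.2.2⟩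
  inv_mem' := fun {u} hu => ⟨inv_mem hu.1, by rw [map_inv, hu.2.1, inv_one], by
    rw [hF.kap_inv hu.1 hu.2.1]; exact inv_mem hu.2.2⟩

theorem mem_KJ (hF : FIn s h) {u : F} :
    u ∈ KJ hF ↔ u ∈ FS (s + 1) (h - 1) ∧ cl u = 1 ∧ kap s u ∈ JJ s h := Iff.rfl

theorem M_cl_one {s' h' : ℕ} {γ : MulAut F} (_hγ : γ ∈ M s' h') {u : F} (hc : cl u = 1) :
    cl (γ u) = 1 := by
  rw [← clv_eq_zero_iff, ← act_clv, clv_eq_zero_iff.2 hc, map_zero]

theorem kap_mem_JJ (hh : 2 ≤ h) (hF : FIn s h) {u : F} (hu : u ∈ FS (s + 1) (h - 1))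
    (hc : cl u = 1) : kap s u ∈ JJ s h := by
  have hMle : M (s + 1) (h - 1) ≤ M s h := M_mono (by omega) (by omega)
  have key : u ∈ KJ hF := by
    refine M_comm_le (s := s + 1) (h := h - 1) ?_ ?_ ?_ hu hc
    · intro v hv u hu
      refine ⟨mul_mem (mul_mem hv hu.1) (inv_mem hv), ?_, ?_⟩
      · rw [map_mul, map_mul, map_inv, hu.2.1]; simp
      · rw [← hF.kap_push v hv u hu.1 hu.2.1]
        exact JJ_conj (Ma_le_M (by omega) (hF.push_mem v hv)) hu.2.2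
    · intro γ hγ u hu
      refine ⟨M_FS hγ hu.1, M_cl_one hγ hu.2.1, ?_⟩
      rw [← hF.kap_conj γ hγ u hu.1 hu.2.1]
      exact JJ_conj (hMle hγ) hu.2.2
    · intro _
      refine ⟨H_mem_FS le_rfl (by omega), cl_H _, ?_⟩
      rw [hF.kap_H hh]
      refine mul_mem (KA_mem_JJ hh) ?_
      rw [E_TD_succ]
      exact JJ_conj (S_mem s h hh) (TD_mem_JJ s h)
  exact key.2.2

/-- an element of `Ma s h` fixing `eb s` is in `JJ s h * M (s+1) (h-1)` -/
theorem Ma_stab (hF : FIn s h) (hh : 1 ≤ h) {m : MulAut F} (hm : m ∈ Ma s h)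
    (he : act m (eb s) = eb s) :
    ∃ j ∈ JJ s h, ∃ γ ∈ M (s + 1) (h - 1), m = j * γ := by
  obtain ⟨u, hu, k, γ, hγ, rfl⟩ := hF.Ma_nf m hm
  rw [act_mul, M_fix_eb hγ (by omega), act_mul, act_Ta_zpow, eb_odd, if_pos rfl, mul_one,
    map_add, map_zsmul, Ma_fix_ea (hF.push_mem u hu), hF.act_push u hu] at he
  have h1 : clv u = (nu s u + k) • ea s := by
    have : eb s = eb s - clv u + (nu s u + k) • ea s := by
      rw [add_smul, ← add_assoc]; exact he.symm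
    have h2 : (0 : Lat) = - clv u + (nu s u + k) • ea s := by
      have h3 : eb s + 0 = eb s + (- clv u + (nu s u + k) • ea s) := by
        rw [add_zero, ← add_assoc, ← sub_eq_add_neg]; exact this
      exact add_left_cancel h3
    rw [add_comm, ← sub_eq_add_neg] at h2
    exact (sub_eq_zero.1 h2.symm).symm
  have h2 : clv u (2 * s) = 0 := by
    have : ∀ x ∈ FS (s + 1) (h - 1), clv x (2 * s) = 0 := by
      intro x hx
      unfold FS at hx
      induction hx using Subgroup.closure_induction with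
      | mem x hx =>
        obtain ⟨n, n1, n2, rfl⟩ := hx
        rw [clv_of, Finsupp.single_apply, if_neg (by omega)]
      | one => rw [clv_one]; rfl
      | mul x y _ _ hx hy => rw [clv_mul, Finsupp.add_apply, hx, hy, add_zero]
      | inv x _ hx => rw [clv_inv, Finsupp.neg_apply, hx, neg_zero]
    exact this u hu
  have h3 : nu s u + k = 0 := by
    rw [h1, Finsupp.smul_apply, ea_even, if_pos rfl, smul_eq_mul, mul_one] at h2
    exact h2
  have h4 : cl u = 1 := by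
    rw [← clv_eq_zero_iff, h1, h3, zero_smul]
  have h5 : k = -(nu s u) := by omega
  have h6 : push s u * Ta s ^ k = kap s u := by rw [kap, h5]
  rw [h6]
  by_cases h7 : 2 ≤ h
  · exact ⟨kap s u, kap_mem_JJ h7 hF hu h4, γ, hγ, rfl⟩
  · have h8 : h - 1 = 0 := by omega
    have h9 : u = 1 := by
      rw [h8] at hu
      unfold FS at hu
      have : {x : F | ∃ n, 2 * (s + 1) ≤ n ∧ n < 2 * (s + 1 + 0) ∧ x = FreeGroup.of n} = ∅ := by
        ext x; simp only [Set.mem_ofPred_eq, Set.mem_empty_iff_false, iff_false]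
        rintro ⟨n, n1, n2, -⟩; omega
      rw [this, Subgroup.closure_empty] at hu
      exact Subgroup.mem_bot.1 hu
    refine ⟨1, one_mem _, γ, hγ, ?_⟩
    rw [h9, hF.kap_one]

/-- `Ma s h ⊓ IA ≤ JJ s h * Tor (s+1) (h-1)` -/
theorem Ma_IA (hF : FIn s h) (hh : 1 ≤ h) (hind : Tor (s + 1) (h - 1) ≤ JJ s h) {m : MulAut F}
    (hm : m ∈ Ma s h) (hI : m ∈ IA) : m ∈ JJ s h := by
  obtain ⟨j, hj, γ, hγ, rfl⟩ := Ma_stab hF hh hm (IA_act hI _)
  refine mul_mem hj (hind ⟨hγ, ?_⟩)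
  have h1 : j ∈ IA := (JJ_le_Tor hh hj).2
  have h2 : j⁻¹ * (j * γ) ∈ IA := IA.mul_mem (IA.inv_mem h1) hI
  rwa [inv_mul_cancel_left] at h2

end Pool.Agent.Torelli
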