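import Pool.Agent.Torelli.Shift

/-!
# Torelli / E / Id : the identities used in part E
-/

set_option autoImplicit false
set_option linter.unusedSimpArgs false

namespace Pool.Agent.Torelli

/-- `r s = w s * P s * (w s)⁻¹` -/
def rP (s : ℕ) : MulAut F := w s * P s * (w s)⁻¹

theorem E_wTaw (s : ℕ) : w s * Ta s * (w s)⁻¹ = (Tb s)⁻¹ := by
  simp only [w_eq, iota_eq, TD_eq, S_eq, DX_eq, BP_eq, gKA_eq, KA_eq, KB_eq, Ta_ew, Tb_ew, P_ew,
    evWord_shift, evWord_inv', evWord_mul']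
  exact evWord_eq 2 _ _ (by decide +kernel) s
theorem E_w_inv (s : ℕ) : (w s)⁻¹ = Ta s * w s * Ta s * (iota s)⁻¹ := by
  simp only [w_eq, iota_eq, TD_eq, S_eq, DX_eq, BP_eq, gKA_eq, KA_eq, KB_eq, Ta_ew, Tb_ew, P_ew,
    evWord_shift, evWord_inv', evWord_mul']
  exact evWord_eq 2 _ _ (by decide +kernel) s
theorem E_iota_w (s : ℕ) : iota s * w s = w s * iota s := by
  simp only [w_eq, iota_eq, TD_eq, S_eq, DX_eq, BP_eq, gKA_eq, KA_eq, KB_eq, Ta_ew, Tb_ew, P_ew,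
    evWord_shift, evWord_inv', evWord_mul']
  exact evWord_eq 2 _ _ (by decide +kernel) s
theorem E_iota_Ta (s : ℕ) : iota s * Ta s = Ta s * iota s := by
  simp only [w_eq, iota_eq, TD_eq, S_eq, DX_eq, BP_eq, gKA_eq, KA_eq, KB_eq, Ta_ew, Tb_ew, P_ew,
    evWord_shift, evWord_inv', evWord_mul']
  exact evWord_eq 2 _ _ (by decide +kernel) s
theorem E_iota_Tb (s : ℕ) : iota s * Tb s = Tb s * iota s := by
  simp only [w_eq, iota_eq, TD_eq, S_eq, DX_eq, BP_eq, gKA_eq, KA_eq, KB_eq, Ta_ew, Tb_ew, P_ew,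
    evWord_shift, evWord_inv', evWord_mul']
  exact evWord_eq 2 _ _ (by decide +kernel) s
theorem E_iota_sq (s : ℕ) : iota s * iota s = (TD s)⁻¹ := by
  simp only [w_eq, iota_eq, TD_eq, S_eq, DX_eq, BP_eq, gKA_eq, KA_eq, KB_eq, Ta_ew, Tb_ew, P_ew,
    evWord_shift, evWord_inv', evWord_mul']
  exact evWord_eq 2 _ _ (by decide +kernel) s
theorem E_w_cube (s : ℕ) : w s * w s * w s = iota s := rfl
theorem E_Ta_P (s : ℕ) : Ta s * P s = P s * Ta s := by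
  simp only [w_eq, iota_eq, TD_eq, S_eq, DX_eq, BP_eq, gKA_eq, KA_eq, KB_eq, Ta_ew, Tb_ew, P_ew,
    evWord_shift, evWord_inv', evWord_mul']
  exact evWord_eq 4 _ _ (by decide +kernel) s
theorem E_Ta1_P (s : ℕ) : Ta (s + 1) * P s = P s * Ta (s + 1) := by
  simp only [w_eq, iota_eq, TD_eq, S_eq, DX_eq, BP_eq, gKA_eq, KA_eq, KB_eq, Ta_ew, Tb_ew, P_ew,
    evWord_shift, evWord_inv', evWord_mul']
  exact evWord_eq 4 _ _ (by decide +kernel) s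
theorem E_Ta1_w (s : ℕ) : Ta (s + 1) * w s = w s * Ta (s + 1) := by
  simp only [w_eq, iota_eq, TD_eq, S_eq, DX_eq, BP_eq, gKA_eq, KA_eq, KB_eq, Ta_ew, Tb_ew, P_ew,
    evWord_shift, evWord_inv', evWord_mul']
  exact evWord_eq 4 _ _ (by decide +kernel) s
theorem E_conj_P (s : ℕ) : (Tb s)⁻¹ * P s * Tb s = P s * (w s * P s * (w s)⁻¹) * Ta (s + 1) := by
  simp only [w_eq, iota_eq, TD_eq, S_eq, DX_eq, BP_eq, gKA_eq, KA_eq, KB_eq, Ta_ew, Tb_ew, P_ew,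
    evWord_shift, evWord_inv', evWord_mul']
  exact evWord_eq 4 _ _ (by decide +kernel) s
theorem E_Tb_r (s : ℕ) : Tb s * (w s * P s * (w s)⁻¹) = (w s * P s * (w s)⁻¹) * Tb s := by
  simp only [w_eq, iota_eq, TD_eq, S_eq, DX_eq, BP_eq, gKA_eq, KA_eq, KB_eq, Ta_ew, Tb_ew, P_ew,
    evWord_shift, evWord_inv', evWord_mul']
  exact evWord_eq 4 _ _ (by decide +kernel) s
theorem E_comm_Pr (s : ℕ) : P s * (w s * P s * (w s)⁻¹)⁻¹ * (P s)⁻¹ * (w s * P s * (w s)⁻¹) =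
    DX s * Ta (s + 1) * Ta (s + 1) := by
  simp only [w_eq, iota_eq, TD_eq, S_eq, DX_eq, BP_eq, gKA_eq, KA_eq, KB_eq, Ta_ew, Tb_ew, P_ew,
    evWord_shift, evWord_inv', evWord_mul']
  exact evWord_eq 4 _ _ (by decide +kernel) s
theorem E_iota_conj_P (s : ℕ) : (iota s)⁻¹ * P s * iota s = DX s * (P s)⁻¹ := by
  simp only [w_eq, iota_eq, TD_eq, S_eq, DX_eq, BP_eq, gKA_eq, KA_eq, KB_eq, Ta_ew, Tb_ew, P_ew,
    evWord_shift, evWord_inv', evWord_mul']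
  exact evWord_eq 4 _ _ (by decide +kernel) s
theorem E_TD_succ (s : ℕ) : TD (s + 1) = S s * TD s * (S s)⁻¹ := by
  simp only [w_eq, iota_eq, TD_eq, S_eq, DX_eq, BP_eq, gKA_eq, KA_eq, KB_eq, Ta_ew, Tb_ew, P_ew,
    evWord_shift, evWord_inv', evWord_mul']
  exact evWord_eq 4 _ _ (by decide +kernel) s
theorem E_BP_succ (s : ℕ) : BP (s + 1) = S s * S (s + 1) * BP s * (S s * S (s + 1))⁻¹ := by
  simp only [w_eq, iota_eq, TD_eq, S_eq, DX_eq, BP_eq, gKA_eq, KA_eq, KB_eq, Ta_ew, Tb_ew, P_ew,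
    evWord_shift, evWord_inv', evWord_mul']
  exact evWord_eq 6 _ _ (by decide +kernel) s
theorem E_KA (s : ℕ) : KA s = gKA s * (BP s)⁻¹ * (gKA s)⁻¹ := rfl
theorem E_TD_w (s : ℕ) : TD s * w s = w s * TD s := by
  simp only [w_eq, iota_eq, TD_eq, S_eq, DX_eq, BP_eq, gKA_eq, KA_eq, KB_eq, Ta_ew, Tb_ew, P_ew,
    evWord_shift, evWord_inv', evWord_mul']
  exact evWord_eq 2 _ _ (by decide +kernel) s

end Pool.Agent.Torelli
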