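import Pool.Agent.Torelli.E.Id
import Pool.Agent.Torelli.SP.Witt

/-!
# Torelli / E / JJ : basic properties of `JJ s h`
-/

set_option autoImplicit false

namespace Pool.Agent.Torelli

theorem JJ_gen_TD {s h : ℕ} {θ : MulAut F} (hθ : θ ∈ M s h) : θ * TD s * θ⁻¹ ∈ JJ s h :=
  Subgroup.subset_closure ⟨θ, hθ, Or.inl rfl⟩
theorem JJ_gen_BP {s h : ℕ} (hh : 2 ≤ h) {θ : MulAut F} (hθ : θ ∈ M s h) :
    θ * BP s * θ⁻¹ ∈ JJ s h := Subgroup.subset_closure ⟨θ, hθ, Or.inr ⟨hh, rfl⟩⟩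

theorem TD_mem_JJ (s h : ℕ) : TD s ∈ JJ s h := by
  have := JJ_gen_TD (s := s) (h := h) (one_mem _)
  simpa using this
theorem BP_mem_JJ {s h : ℕ} (hh : 2 ≤ h) : BP s ∈ JJ s h := by
  have := JJ_gen_BP (s := s) hh (one_mem _)
  simpa using this

/-- `JJ s h` is normalised by `M s h` -/
theorem JJ_conj {s h : ℕ} {θ x : MulAut F} (hθ : θ ∈ M s h) (hx : x ∈ JJ s h) :
    θ * x * θ⁻¹ ∈ JJ s h := by
  have h1 : JJ s h ≤ (JJ s h).comap (MulAut.conj θ).toMonoidHom := by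
    conv_lhs => unfold JJ
    rw [Subgroup.closure_le]
    rintro φ ⟨ψ, hψ, rfl | ⟨h2, rfl⟩⟩
    · change θ * (ψ * TD s * ψ⁻¹) * θ⁻¹ ∈ JJ s h
      have e : θ * (ψ * TD s * ψ⁻¹) * θ⁻¹ = (θ * ψ) * TD s * (θ * ψ)⁻¹ := by group
      rw [e]; exact JJ_gen_TD (mul_mem hθ hψ)
    · change θ * (ψ * BP s * ψ⁻¹) * θ⁻¹ ∈ JJ s h
      have e : θ * (ψ * BP s * ψ⁻¹) * θ⁻¹ = (θ * ψ) * BP s * (θ * ψ)⁻¹ := by group
      rw [e]; exact JJ_gen_BP h2 (mul_mem hθ hψ)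
  exact h1 hx

theorem JJ_conj' {s h : ℕ} {θ x : MulAut F} (hθ : θ ∈ M s h) (hx : x ∈ JJ s h) :
    θ⁻¹ * x * θ ∈ JJ s h := by
  have := JJ_conj (inv_mem hθ) hx
  rwa [inv_inv] at this

/-- a subgroup normalised by `M s h` which contains the generators contains `JJ s h` -/
theorem JJ_le {s h : ℕ} {K : Subgroup (MulAut F)} (hK : ∀ θ ∈ M s h, ∀ x ∈ K, θ * x * θ⁻¹ ∈ K)
    (h1 : TD s ∈ K) (h2 : 2 ≤ h → BP s ∈ K) : JJ s h ≤ K := by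
  unfold JJ
  rw [Subgroup.closure_le]
  rintro φ ⟨ψ, hψ, rfl | ⟨h3, rfl⟩⟩
  · exact hK _ hψ _ h1
  · exact hK _ hψ _ (h2 h3)

theorem DX_mem_JJ {s h : ℕ} (hh : 2 ≤ h) : DX s ∈ JJ s h := by
  have : DX s = BP s * TD s := by simp [BP]
  rw [this]; exact mul_mem (BP_mem_JJ hh) (TD_mem_JJ s h)

theorem KA_mem_JJ {s h : ℕ} (hh : 2 ≤ h) : KA s ∈ JJ s h := by
  rw [E_KA]
  apply JJ_conj _ (inv_mem (BP_mem_JJ hh))
  have h0 : Tb s ∈ M s h := Tb_mem_M le_rfl (by omega)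
  have h1 : Ta s ∈ M s h := Ta_mem_M le_rfl (by omega)
  have h2 : P s ∈ M s h := P_mem_M le_rfl (by omega)
  have h3 : Tb (s + 1) ∈ M s h := Tb_mem_M (by omega) (by omega)
  have h4 : Ta (s + 1) ∈ M s h := Ta_mem_M (by omega) (by omega)
  unfold gKA
  exact mul_mem (mul_mem (mul_mem (mul_mem (mul_mem (mul_mem (mul_mem (mul_mem (mul_mem h0
    (inv_mem h2)) (inv_mem h1)) h3) (inv_mem h4)) h1) (inv_mem h0)) h2) h4) (inv_mem h3)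

theorem TD_IA (s : ℕ) : TD s ∈ IA := by
  rw [mem_IA_iff_of]
  intro n
  by_cases h : n < 2 * s ∨ 2 * s + 2 ≤ n
  · rw [TD_out s n h]
  · rcases (show n = 2 * s ∨ n = 2 * s + 1 by omega) with rfl | rfl
    · rw [← a_def, TD_a0]; simp
    · rw [← b_def, TD_b0]; simp

theorem DX_IA (s : ℕ) : DX s ∈ IA := by
  rw [mem_IA_iff_of]
  intro n
  by_cases h : n < 2 * s ∨ 2 * s + 4 ≤ n
  · rw [DX_out s n h]
  · rcases (show n = 2 * s ∨ n = 2 * s + 1 ∨ n = 2 * (s + 1) ∨ n = 2 * (s + 1) + 1 by omega)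
      with rfl | rfl | rfl | rfl
    · rw [← a_def, DX_a0]; simp [mul_comm]
    · rw [← b_def, DX_b0]; simp [mul_comm]
    · rw [← a_def, DX_a1]; simp [cl_H]
    · rw [← b_def, DX_b1]; simp [cl_H]

theorem BP_IA (s : ℕ) : BP s ∈ IA := mul_mem (DX_IA s) (inv_mem (TD_IA s))

theorem TD_mem_Tor {s h : ℕ} (hh : 1 ≤ h) : TD s ∈ Tor s h := ⟨TD_mem s h hh, TD_IA s⟩
theorem BP_mem_Tor {s h : ℕ} (hh : 2 ≤ h) : BP s ∈ Tor s h := ⟨BP_mem s h hh, BP_IA s⟩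
theorem DX_mem_Tor {s h : ℕ} (hh : 2 ≤ h) : DX s ∈ Tor s h := ⟨DX_mem s h hh, DX_IA s⟩

theorem JJ_le_Tor {s h : ℕ} (hh : 1 ≤ h) : JJ s h ≤ Tor s h :=
  JJ_le (fun _ hθ _ hx => Tor_conj hx hθ) (TD_mem_Tor hh) (fun h2 => BP_mem_Tor h2)

theorem JJ_le_M {s h : ℕ} (hh : 1 ≤ h) : JJ s h ≤ M s h := (JJ_le_Tor hh).trans (Tor_le_M s h)

/-- `JJ (s+1) (h-1) ≤ JJ s h` -/
theorem JJ_succ_le {s h : ℕ} (hh : 2 ≤ h) : JJ (s + 1) (h - 1) ≤ JJ s h := by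
  have hM : M (s + 1) (h - 1) ≤ M s h := M_mono (by omega) (by omega)
  have hS : S s ∈ M s h := S_mem s h hh
  apply JJ_le
  · intro θ hθ x hx
    exact JJ_conj (hM hθ) hx
  · rw [E_TD_succ]; exact JJ_conj hS (TD_mem_JJ s h)
  · intro h3
    rw [E_BP_succ]
    exact JJ_conj (mul_mem hS (M_mono (by omega) (by omega) (S_mem (s + 1) (h - 1) h3)))
      (BP_mem_JJ hh)

end Pool.Agent.Torelli
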