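import Pool.Agent.Torelli.E.Nn

/-!
# Torelli / E / Key : the coset identity behind the triangle axiom
-/

set_option autoImplicit false

namespace Pool.Agent.Torelli

variable {s h : ℕ}

theorem rP_mem (hh : 1 ≤ h) : rP s ∈ M s (h + 1) :=
  mul_mem (mul_mem (w_mem_M le_rfl (by omega)) (P_mem_M le_rfl (by omega)))
    (inv_mem (w_mem_M le_rfl (by omega)))

/-- `⟨P s, Ta (s+1), JJ⟩` -/
def Np (s h : ℕ) : Subgroup (MulAut F) :=
  Subgroup.closure ({P s, Ta (s + 1)} ∪ (JJ s (h + 1) : Set (MulAut F)))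

theorem P_mem_Np : P s ∈ Np s h := Subgroup.subset_closure (Or.inl (Or.inl rfl))
theorem Ta1_mem_Np : Ta (s + 1) ∈ Np s h := Subgroup.subset_closure (Or.inl (Or.inr rfl))
theorem JJ_le_Np : JJ s (h + 1) ≤ Np s h := fun _ hx => Subgroup.subset_closure (Or.inr hx)

theorem Np_le_Nn (hh : 1 ≤ h) : Np s h ≤ Nn s h := by
  unfold Np
  rw [Subgroup.closure_le]
  rintro x ((rfl | rfl) | hx)
  · exact Ma_le_Nn (P_mem_Ma (by omega))
  · exact M_le_Nn (Ta_mem_M le_rfl (by omega))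
  · exact JJ_le_Nn hx

theorem E_Ta1_r (s : ℕ) : Ta (s + 1) * rP s = rP s * Ta (s + 1) := by
  unfold rP
  have h1 := E_Ta1_P s
  have h2 := E_Ta1_w s
  calc Ta (s + 1) * (w s * P s * (w s)⁻¹)
      = (Ta (s + 1) * w s) * P s * (w s)⁻¹ := by group
    _ = w s * (Ta (s + 1) * P s) * (w s)⁻¹ := by rw [h2]; group
    _ = w s * P s * (w s)⁻¹ * ((w s * Ta (s + 1)) * (w s)⁻¹) := by rw [h1]; group
    _ = w s * P s * (w s)⁻¹ * Ta (s + 1) := by rw [← h2]; group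

theorem r_inv_conj_P (s : ℕ) : (rP s)⁻¹ * P s * rP s = (DX s * Ta (s + 1) * Ta (s + 1))⁻¹ * P s := by
  have h1 := E_comm_Pr s
  change P s * (rP s)⁻¹ * (P s)⁻¹ * rP s = _ at h1
  rw [← h1]; group

theorem Np_conj_inv (hh : 1 ≤ h) {x : MulAut F} (hx : x ∈ Np s h) :
    (rP s)⁻¹ * x * rP s ∈ Np s h := by
  have hr : rP s ∈ M s (h + 1) := rP_mem hh
  have key : Np s h ≤ (Np s h).comap (MulAut.conj (rP s)⁻¹).toMonoidHom := by
    conv_lhs => unfold Np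
    rw [Subgroup.closure_le]
    rintro x ((rfl | rfl) | hx)
    · change (rP s)⁻¹ * P s * ((rP s)⁻¹)⁻¹ ∈ Np s h
      rw [inv_inv, r_inv_conj_P]
      exact mul_mem (inv_mem (mul_mem (mul_mem (JJ_le_Np (DX_mem_JJ (by omega))) Ta1_mem_Np)
        Ta1_mem_Np)) P_mem_Np
    · change (rP s)⁻¹ * Ta (s + 1) * ((rP s)⁻¹)⁻¹ ∈ Np s h
      rw [inv_inv, mul_assoc, E_Ta1_r, inv_mul_cancel_left]
      exact Ta1_mem_Np
    · change (rP s)⁻¹ * x * ((rP s)⁻¹)⁻¹ ∈ Np s h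
      rw [inv_inv]
      exact JJ_le_Np (JJ_conj' hr hx)
  have := key hx
  change (rP s)⁻¹ * x * ((rP s)⁻¹)⁻¹ ∈ Np s h at this
  rwa [inv_inv] at this

theorem Np_conj (hh : 1 ≤ h) {x : MulAut F} (hx : x ∈ Np s h) :
    rP s * x * (rP s)⁻¹ ∈ Np s h := by
  have hr : rP s ∈ M s (h + 1) := rP_mem hh
  have key : Np s h ≤ (Np s h).comap (MulAut.conj (rP s)).toMonoidHom := by
    conv_lhs => unfold Np
    rw [Subgroup.closure_le]
    rintro x ((rfl | rfl) | hx)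
    · change rP s * P s * (rP s)⁻¹ ∈ Np s h
      have h1 := r_inv_conj_P s
      -- P = r (DX t t)⁻¹ r⁻¹ * (r P r⁻¹)
      have h2 : rP s * P s * (rP s)⁻¹ =
          (rP s * (DX s) * (rP s)⁻¹) * (Ta (s + 1) * Ta (s + 1)) * P s := by
        have h3 : P s = (DX s * Ta (s + 1) * Ta (s + 1)) * ((rP s)⁻¹ * P s * rP s) := by
          rw [h1]; group
        have h4 : rP s * P s * (rP s)⁻¹ =
            rP s * (DX s * Ta (s + 1) * Ta (s + 1)) * (rP s)⁻¹ * P s := by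
          conv_lhs => rw [h3]
          group
        rw [h4]
        have h5 : Commute (rP s) (Ta (s + 1)) := (E_Ta1_r s).symm
        have h6 : rP s * (Ta (s + 1) * Ta (s + 1)) = (Ta (s + 1) * Ta (s + 1)) * rP s :=
          (h5.mul_right h5).eq
        calc rP s * (DX s * Ta (s + 1) * Ta (s + 1)) * (rP s)⁻¹ * P s
            = rP s * DX s * (rP s)⁻¹ * (rP s * (Ta (s + 1) * Ta (s + 1))) * (rP s)⁻¹ * P s := by
              group
          _ = _ := by rw [h6]; group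
      rw [h2]
      exact mul_mem (mul_mem (JJ_le_Np (JJ_conj hr (DX_mem_JJ (by omega))))
        (mul_mem Ta1_mem_Np Ta1_mem_Np)) P_mem_Np
    · change rP s * Ta (s + 1) * (rP s)⁻¹ ∈ Np s h
      rw [← E_Ta1_r, mul_inv_cancel_right]
      exact Ta1_mem_Np
    · change rP s * x * (rP s)⁻¹ ∈ Np s h
      exact JJ_le_Np (JJ_conj hr hx)
  exact key hx

/-- powers of an element of `r^c * Np`, `c = ±1` -/
theorem Np_pow (hh : 1 ≤ h) {c : ℤ} (hc : c = 1 ∨ c = -1) {B n0 : MulAut F} (hn0 : n0 ∈ Np s h)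
    (hB : B = rP s ^ c * n0) (j : ℕ) : ∃ n ∈ Np s h, B ^ j = rP s ^ (c * j) * n := by
  induction j with
  | zero => exact ⟨1, one_mem _, by simp⟩
  | succ j ih =>
    obtain ⟨n, hn, e⟩ := ih
    refine ⟨(rP s ^ c)⁻¹ * n * rP s ^ c * n0, mul_mem ?_ hn0, ?_⟩
    · rcases hc with rfl | rfl
      · rw [zpow_one]; exact Np_conj_inv hh hn
      · rw [zpow_neg_one, inv_inv]; exact Np_conj hh hn
    · rw [pow_succ, e, hB]
      push_cast
      rw [mul_add, mul_one, zpow_add]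
      group

theorem Np_zpow (hh : 1 ≤ h) {c : ℤ} (hc : c = 1 ∨ c = -1) {B n0 : MulAut F} (hn0 : n0 ∈ Np s h)
    (hB : B = rP s ^ c * n0) (j : ℤ) : ∃ n ∈ Np s h, B ^ j = rP s ^ (c * j) * n := by
  obtain ⟨k, rfl | rfl⟩ := j.eq_nat_or_neg
  · rw [zpow_natCast]
    exact Np_pow hh hc hn0 hB k
  · have hc' : -c = 1 ∨ -c = -1 := by omega
    have hB' : B⁻¹ = rP s ^ (-c) * (rP s ^ c * n0⁻¹ * (rP s ^ c)⁻¹) := by
      rw [hB, zpow_neg]; group
    obtain ⟨n, hn, e⟩ := Np_pow hh hc' (n0 := rP s ^ c * n0⁻¹ * (rP s ^ c)⁻¹) (by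
      rcases hc with rfl | rfl
      · rw [zpow_one]; exact Np_conj hh (inv_mem hn0)
      · rw [zpow_neg_one, inv_inv]; exact Np_conj_inv hh (inv_mem hn0)) hB' k
    refine ⟨n, hn, ?_⟩
    rw [zpow_neg, zpow_natCast, ← inv_pow, e]
    congr 2; ring

theorem E_Tb1_r (s : ℕ) : Tb s * rP s = rP s * Tb s := E_Tb_r s

/-- `Ta^c w ∈ Tb^c N`, `c = ±1` -/
theorem Ta_w_coset (s h : ℕ) {c : ℤ} (hc : c = 1 ∨ c = -1) :
    ∃ n ∈ Nn s h, Ta s ^ c * w s = Tb s ^ c * n := by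
  rcases hc with rfl | rfl
  · refine ⟨(Ta s)⁻¹ * iota s * (Ta s)⁻¹, mul_mem (mul_mem (inv_mem Ta_mem_Nn) iota_mem_Nn)
      (inv_mem Ta_mem_Nn), ?_⟩
    have h1 := E_w_inv s
    have h2 : Tb s = (w s)⁻¹ * Ta s := by unfold w; group
    rw [zpow_one, zpow_one, h2, h1]
    group
  · refine ⟨1, one_mem _, ?_⟩
    rw [zpow_neg_one, zpow_neg_one]
    unfold w; group

/-- the key coset identity -/
theorem key_coset (hh : 1 ≤ h) {c : ℤ} (hc : c = 1 ∨ c = -1) (j : ℤ) :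
    ∃ n ∈ Nn s h, P s ^ j * Ta s ^ c * w s = rP s ^ (c * j) * Tb s ^ c * n := by
  obtain ⟨n1, hn1, e1⟩ := Ta_w_coset s h hc
  -- B = Tb^-c P Tb^c
  have hB : ∃ n0 ∈ Np s h, (Tb s ^ c)⁻¹ * P s * Tb s ^ c = rP s ^ c * n0 := by
    have h1 : (Tb s)⁻¹ * P s * Tb s = P s * rP s * Ta (s + 1) := E_conj_P s
    rcases hc with rfl | rfl
    · refine ⟨((rP s)⁻¹ * P s * rP s) * Ta (s + 1), mul_mem (Np_conj_inv hh P_mem_Np)
        Ta1_mem_Np, ?_⟩
      rw [zpow_one, zpow_one, h1]; group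
    · refine ⟨(rP s * P s * (rP s)⁻¹) * (Ta (s + 1))⁻¹, mul_mem (Np_conj hh P_mem_Np)
        (inv_mem Ta1_mem_Np), ?_⟩
      rw [zpow_neg_one, zpow_neg_one, inv_inv]
      have h2 : P s = (Tb s * P s * (Tb s)⁻¹) * (Tb s * rP s * (Tb s)⁻¹) *
          (Tb s * Ta (s + 1) * (Tb s)⁻¹) := by
        have h3 : P s = Tb s * ((Tb s)⁻¹ * P s * Tb s) * (Tb s)⁻¹ := by group
        conv_lhs => rw [h3, h1]
        group
      have h4 : Tb s * rP s * (Tb s)⁻¹ = rP s := by rw [E_Tb1_r, mul_inv_cancel_right]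
      have h5 : Tb s * Ta (s + 1) * (Tb s)⁻¹ = Ta (s + 1) := by
        have : Tb s * Ta (s + 1) = Ta (s + 1) * Tb s :=
          M_commute (Tb_mem_M (h := 1) le_rfl (by omega)) (Ta_mem_M (s := s + 1) (h := 1) le_rfl
            (by omega)) (Or.inr (by omega))
        rw [this, mul_inv_cancel_right]
      rw [h4, h5] at h2
      have h6 : Tb s * P s * (Tb s)⁻¹ = P s * (Ta (s + 1))⁻¹ * (rP s)⁻¹ := by
        conv_rhs => rw [h2]
        group
      rw [h6]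
      have h7 : (Ta (s + 1))⁻¹ * (rP s)⁻¹ = (rP s)⁻¹ * (Ta (s + 1))⁻¹ := by
        rw [← mul_inv_rev, ← mul_inv_rev, E_Ta1_r]
      rw [mul_assoc, h7]; group
  obtain ⟨n0, hn0, e0⟩ := hB
  obtain ⟨n, hn, e⟩ := Np_zpow hh hc hn0 e0 j
  refine ⟨n * n1, mul_mem (Np_le_Nn hh hn) hn1, ?_⟩
  have e2 : ((Tb s ^ c)⁻¹ * P s * Tb s ^ c) ^ j = (Tb s ^ c)⁻¹ * P s ^ j * Tb s ^ c := by
    have := conj_zpow (i := j) (a := (Tb s ^ c)⁻¹) (b := P s)
    rw [inv_inv] at this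
    exact this
  rw [e2] at e
  have e3 : Commute (Tb s ^ c) (rP s ^ (c * j)) := by
    have : Commute (Tb s) (rP s) := E_Tb1_r s
    exact (this.zpow_left c).zpow_right _
  calc P s ^ j * Ta s ^ c * w s = P s ^ j * (Ta s ^ c * w s) := by group
    _ = Tb s ^ c * ((Tb s ^ c)⁻¹ * P s ^ j * Tb s ^ c) * n1 := by rw [e1]; group
    _ = (Tb s ^ c * rP s ^ (c * j)) * n * n1 := by rw [e]; group
    _ = _ := by rw [e3.eq]; group

end Pool.Agent.Torelli
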