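import Pool.Agent.Torelli.E.Key
import Pool.Agent.Torelli.D.Main

/-!
# Torelli / E / Lift : the lift data on the cosets of `Nn s h` and the conclusion
-/

set_option autoImplicit false

namespace Pool.Agent.Torelli

/-- the form on `Vs s h` -/
noncomputable def omV (s h : ℕ) : ↥(Vs s h) →+ ↥(Vs s h) →+ ℤ :=
  AddMonoidHom.mk' (fun v => (om v.1).comp (Vs s h).subtype) (by
    intro a b; ext x; simp)

theorem omV_apply {s h : ℕ} (v w : ↥(Vs s h)) : omV s h v w = om v.1 w.1 := rfl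

variable {s h : ℕ}

/-- cosets -/
abbrev XX (s h : ℕ) := MulAut F ⧸ Nn s h

/-- `x` lies over `v` -/
def ov (s h : ℕ) (x : XX s h) (v : ↥(Vs s (h + 1))) : Prop :=
  ∃ θ ∈ M s (h + 1), x = (θ : XX s h) ∧ (v.1 = act θ (ea s) ∨ v.1 = - act θ (ea s))

/-- adjacency -/
def adj (s h : ℕ) (x y : XX s h) : Prop :=
  ∃ θ ∈ M s (h + 1), x = (θ : XX s h) ∧ y = ((θ * w s : MulAut F) : XX s h)

theorem w_mem_M' (s h : ℕ) : w s ∈ M s (h + 1) := w_mem_M le_rfl (by omega)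
theorem Ta_mem_M' (s h : ℕ) : Ta s ∈ M s (h + 1) := Ta_mem_M le_rfl (by omega)

theorem mk_mul_Nn {θ n : MulAut F} (hn : n ∈ Nn s h) :
    ((θ * n : MulAut F) : XX s h) = (θ : XX s h) := by
  rw [QuotientGroup.eq]
  have e : (θ * n)⁻¹ * θ = n⁻¹ := by group
  rw [e]; exact inv_mem hn

/-- if `x = θ N` lies over `v` then `v = ± θ_* e` for this `θ` -/
theorem ov_mk {θ : MulAut F} {v : ↥(Vs s (h + 1))} (hx : ov s h (θ : XX s h) v) :
    v.1 = act θ (ea s) ∨ v.1 = - act θ (ea s) := by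
  obtain ⟨ψ, hψ, e, hv⟩ := hx
  rw [eq_comm, QuotientGroup.eq] at e
  have h1 := Nn_ea e
  rw [act_mul] at h1
  have h2 : act θ (ea s) = act ψ (ea s) ∨ act θ (ea s) = - act ψ (ea s) := by
    rcases h1 with h1 | h1
    · left; rw [eq_comm, act_eq_iff, h1]
    · right; rw [eq_comm, ← map_neg, act_eq_iff, h1]
  rcases hv with hv | hv <;> rcases h2 with h2 | h2
  · left; rw [hv, h2]
  · right; rw [hv, h2, neg_neg]
  · right; rw [hv, h2]
  · left; rw [hv, h2]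

theorem ov_of {θ : MulAut F} (hθ : θ ∈ M s (h + 1)) {v : ↥(Vs s (h + 1))}
    (hv : v.1 = act θ (ea s) ∨ v.1 = - act θ (ea s)) : ov s h (θ : XX s h) v := ⟨θ, hθ, rfl, hv⟩

theorem ov_neg {x : XX s h} {v : ↥(Vs s (h + 1))} (hx : ov s h x v) : ov s h x (-v) := by
  obtain ⟨θ, hθ, e, hv⟩ := hx
  refine ⟨θ, hθ, e, ?_⟩
  rcases hv with hv | hv
  · right; rw [AddSubgroup.coe_neg, hv]
  · left; rw [AddSubgroup.coe_neg, hv, neg_neg]

theorem adj_symm {x y : XX s h} (hxy : adj s h x y) : adj s h y x := by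
  obtain ⟨θ, hθ, rfl, rfl⟩ := hxy
  refine ⟨θ * w s * Ta s, mul_mem (mul_mem hθ (w_mem_M' s h)) (Ta_mem_M' s h), ?_, ?_⟩
  · rw [mk_mul_Nn Ta_mem_Nn]
  · have e : θ * w s * Ta s * w s = θ * (iota s * (Ta s)⁻¹) := by
      have h1 := E_w_inv s
      have h2 : Ta s * w s = (w s)⁻¹ * (iota s * (Ta s)⁻¹) := by rw [h1]; group
      calc θ * w s * Ta s * w s = θ * w s * (Ta s * w s) := by group
        _ = _ := by rw [h2]; group
    rw [e, mk_mul_Nn (mul_mem iota_mem_Nn (inv_mem Ta_mem_Nn))]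

theorem act_w_ea' (s : ℕ) : act (w s) (ea s) = - eb s := act_w_ea s

/-- existence of neighbours over a given vector -/
theorem lift_exists {θ : MulAut F} (hθ : θ ∈ M s (h + 1)) {v u : ↥(Vs s (h + 1))}
    (hv : v.1 = act θ (ea s) ∨ v.1 = - act θ (ea s)) (hE : D.E1 (omV s (h + 1)) v u) :
    ∃ m ∈ Ma s (h + 1), ov s h ((θ * m * w s : MulAut F) : XX s h) u := by
  have hE' : om v.1 u.1 = 1 ∨ om v.1 u.1 = -1 := hE
  have h1 : om (act θ (ea s)) u.1 = 1 ∨ om (act θ (ea s)) u.1 = -1 := by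
    rcases hv with hv | hv
    · rwa [hv] at hE'
    · rw [hv, map_neg, AddMonoidHom.neg_apply] at hE'
      omega
  have h2 : om (act θ (ea s)) u.1 = om (ea s) (act θ⁻¹ u.1) := by
    rw [← M_om hθ (ea s) (act θ⁻¹ u.1), act_act_inv]
  rw [h2] at h1
  have hmem : act θ⁻¹ u.1 ∈ Vs s (h + 1) := M_Vs (inv_mem hθ) u.2
  rcases h1 with h1 | h1
  · obtain ⟨m, hm, e1, e2⟩ := SP_push (by omega) hmem h1
    refine ⟨m, hm, ov_of (mul_mem (mul_mem hθ (Ma_le_M (by omega) hm)) (w_mem_M' s h)) ?_⟩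
    right
    rw [act_mul, act_w_ea, map_neg, act_mul, e2, act_act_inv, neg_neg]
  · obtain ⟨m, hm, e1, e2⟩ := SP_push (h := h + 1) (by omega) (neg_mem hmem) (by
      rw [map_neg, h1]; norm_num)
    refine ⟨m, hm, ov_of (mul_mem (mul_mem hθ (Ma_le_M (by omega) hm)) (w_mem_M' s h)) ?_⟩
    left
    rw [act_mul, act_w_ea, map_neg, act_mul, e2, map_neg, act_act_inv, neg_neg]

/-- uniqueness of neighbours -/
theorem lift_unique (hF : FIn s (h + 1)) {x y z : XX s h} {u : ↥(Vs s (h + 1))}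
    (hy : adj s h x y) (hz : adj s h x z) (hyu : ov s h y u) (hzu : ov s h z u) : y = z := by
  obtain ⟨θ, hθ, rfl, rfl⟩ := hy
  obtain ⟨ψ, hψ, e, rfl⟩ := hz
  rw [QuotientGroup.eq] at e
  have h1 := ov_mk hyu
  have h2 := ov_mk hzu
  rw [act_mul, act_w_ea, map_neg] at h1 h2
  -- θ_* eb = ± ψ_* eb
  have h3 : act θ (eb s) = act ψ (eb s) ∨ act θ (eb s) = - act ψ (eb s) := by
    rcases h1 with h1 | h1 <;> rcases h2 with h2 | h2 <;> rw [h1] at h2
    · left; exact neg_inj.1 h2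
    · right; rw [neg_neg] at h2; rw [← h2, neg_neg]
    · right; rw [neg_neg] at h2; exact h2
    · left; rw [neg_neg, neg_neg] at h2; exact h2
  have h4 : act (θ⁻¹ * ψ) (eb s) = eb s ∨ act (θ⁻¹ * ψ) (eb s) = - eb s := by
    rcases h3 with h3 | h3
    · left; rw [act_mul, ← h3, act_inv_act]
    · right
      rw [act_mul, act_eq_iff, inv_inv, map_neg, h3, neg_neg]
  have h5 := Nn_conj_w hF e h4
  rw [QuotientGroup.eq]
  have e2 : (θ * w s)⁻¹ * (ψ * w s) = (w s)⁻¹ * (θ⁻¹ * ψ) * w s := by group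
  rw [e2]; exact h5

theorem rP_w (s : ℕ) : rP s * w s = w s * P s := by unfold rP; group
theorem Tb_w (s : ℕ) : Tb s * w s = w s * (Ta s)⁻¹ := by
  have h1 := E_wTaw s
  have h2 : Tb s = w s * (Ta s)⁻¹ * (w s)⁻¹ := by
    rw [← inv_inv (Tb s), ← h1]; group
  conv_lhs => rw [h2]
  group

/-- the coset `w N` is fixed by `rP s` powers (genus ≥ 2) -/
theorem rP_zpow_w (s : ℕ) (k : ℤ) : rP s ^ k * w s = w s * P s ^ k := by
  have h1 : rP s = w s * P s * (w s)⁻¹ := rfl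
  rw [h1, conj_zpow]; group
theorem Tb_zpow_w (s : ℕ) (k : ℤ) : Tb s ^ k * w s = w s * (Ta s) ^ (-k) := by
  have h1 := E_wTaw s
  have h2 : Tb s = w s * (Ta s)⁻¹ * (w s)⁻¹ := by
    rw [← inv_inv (Tb s), ← h1]; group
  rw [h2, conj_zpow, zpow_neg, inv_zpow]; group

/-- triangle axiom, normalised form -/
theorem tri_norm (hF : FIn s (h + 1)) {θ : MulAut F} (hθ : θ ∈ M s (h + 1)) {c : ℤ}
    (hc : c = 1 ∨ c = -1) {r : Lat} (hr : r ∈ Vs (s + 1) h) :
    ∃ ψ ∈ M s (h + 1), adj s h (θ : XX s h) (ψ : XX s h) ∧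
      adj s h ((θ * w s : MulAut F) : XX s h) (ψ : XX s h) ∧
      act ψ (ea s) = - act θ (eb s + c • ea s + r) := by
  have hTa := Ta_mem_M' s h
  have hTb : Tb s ∈ M s (h + 1) := Tb_mem_M le_rfl (by omega)
  have hw := w_mem_M' s h
  cases h with
  | zero =>
    have hr0 : r = 0 := Vs_zero hr
    obtain ⟨n, hn, e⟩ := Ta_w_coset s 0 hc
    refine ⟨θ * Ta s ^ c * w s, mul_mem (mul_mem hθ (zpow_mem hTa _)) hw, ?_, ?_, ?_⟩
    · exact ⟨θ * Ta s ^ c, mul_mem hθ (zpow_mem hTa _),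
        (mk_mul_Nn (zpow_mem Ta_mem_Nn _)).symm, rfl⟩
    · apply adj_symm
      refine ⟨θ * Tb s ^ c, mul_mem hθ (zpow_mem hTb _), ?_, ?_⟩
      · rw [mul_assoc, e, ← mul_assoc, mk_mul_Nn hn]
      · rw [mul_assoc, Tb_zpow_w, ← mul_assoc, mk_mul_Nn (zpow_mem Ta_mem_Nn _)]
    · rw [act_mul, act_w_ea, map_neg, act_mul, act_Ta_zpow, eb_odd, if_pos rfl, mul_one, hr0,
        add_zero]
  | succ g =>
    obtain ⟨γ', hγ', k, hk⟩ := SP_NF g (s + 1) r hr
    obtain ⟨n, hn, e⟩ := key_coset (s := s) (h := g + 1) (by omega) hc (-k)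
    have hγ : γ'⁻¹ ∈ M (s + 1) (g + 1) := inv_mem hγ'
    have hγM : γ'⁻¹ ∈ M s (g + 1 + 1) := M_mono (by omega) (by omega) hγ
    have hP : P s ∈ M s (g + 1 + 1) := P_mem_M le_rfl (by omega)
    have hPN : P s ∈ Nn s (g + 1) := Ma_le_Nn (P_mem_Ma (by omega))
    have hrM : rP s ∈ M s (g + 1 + 1) := rP_mem (by omega)
    have hcw : γ'⁻¹ * w s = w s * γ'⁻¹ :=
      M_commute hγ (w_mem s 1 le_rfl) (Or.inl (by omega))
    refine ⟨θ * (γ'⁻¹ * (P s ^ (-k) * Ta s ^ c * w s)), mul_mem hθ (mul_mem hγM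
      (mul_mem (mul_mem (zpow_mem hP _) (zpow_mem hTa _)) hw)), ?_, ?_, ?_⟩
    · refine ⟨θ * (γ'⁻¹ * (P s ^ (-k) * Ta s ^ c)), mul_mem hθ (mul_mem hγM
        (mul_mem (zpow_mem hP _) (zpow_mem hTa _))), ?_, ?_⟩
      · exact (mk_mul_Nn (mul_mem (M_le_Nn hγ) (mul_mem (zpow_mem hPN _)
          (zpow_mem Ta_mem_Nn _)))).symm
      · rw [show θ * (γ'⁻¹ * (P s ^ (-k) * Ta s ^ c)) * w s =
          θ * (γ'⁻¹ * (P s ^ (-k) * Ta s ^ c * w s)) by group]
    · apply adj_symm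
      refine ⟨θ * (γ'⁻¹ * (rP s ^ (c * -k) * Tb s ^ c)), mul_mem hθ (mul_mem hγM
        (mul_mem (zpow_mem hrM _) (zpow_mem hTb _))), ?_, ?_⟩
      · rw [e, ← mul_assoc γ'⁻¹, ← mul_assoc θ, mk_mul_Nn hn]
      · have e2 : θ * (γ'⁻¹ * (rP s ^ (c * -k) * Tb s ^ c)) * w s =
            θ * w s * (γ'⁻¹ * (P s ^ (c * -k) * Ta s ^ (-c))) := by
          calc θ * (γ'⁻¹ * (rP s ^ (c * -k) * Tb s ^ c)) * w s
              = θ * (γ'⁻¹ * (rP s ^ (c * -k) * (Tb s ^ c * w s))) := by group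
            _ = θ * (γ'⁻¹ * ((rP s ^ (c * -k) * w s) * Ta s ^ (-c))) := by
              rw [Tb_zpow_w]; group
            _ = θ * ((γ'⁻¹ * w s) * (P s ^ (c * -k) * Ta s ^ (-c))) := by
              rw [rP_zpow_w]; group
            _ = _ := by rw [hcw]; group
        rw [e2, mk_mul_Nn (mul_mem (M_le_Nn hγ) (mul_mem (zpow_mem hPN _)
          (zpow_mem Ta_mem_Nn _)))]
    · rw [act_mul, act_mul, act_mul, act_w_ea, map_neg, map_neg, map_neg]
      congr 2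
      have e3 : act γ'⁻¹ (ea (s + 1)) = act γ'⁻¹ (ea (s + 1)) := rfl
      rw [act_mul, act_Ta_zpow, eb_odd, if_pos rfl, mul_one, act_P_zpow]
      simp only [Finsupp.add_apply, Finsupp.smul_apply, ea_odd, eb_odd, smul_zero, add_zero, if_true,
        mul_one, neg_smul, sub_neg_eq_add]
      rw [if_neg (by omega), mul_zero, zero_smul, sub_zero, map_add, map_add, map_zsmul,
        map_zsmul, M_fix_eb hγ (Or.inl (by omega)), M_fix_ea hγ (Or.inl (by omega)), ← map_zsmul,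
        ← hk, act_inv_act]

/-- the lift data -/
noncomputable def liftData (hF : FIn s (h + 1)) : D.LiftData (omV s (h + 1)) (XX s h) where
  ov := ov s h
  adj := adj s h
  ov_neg := ov_neg
  symm := adj_symm
  lift := by
    rintro x v u ⟨θ, hθ, rfl, hv⟩ hE
    obtain ⟨m, hm, hov⟩ := lift_exists hθ hv hE
    refine ⟨((θ * m * w s : MulAut F) : XX s h), ⟨hov, θ * m,
      mul_mem hθ (Ma_le_M (by omega) hm), (mk_mul_Nn (Ma_le_Nn hm)).symm, rfl⟩, ?_⟩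
    rintro y ⟨hy1, hy2⟩
    refine lift_unique hF hy2 ⟨θ * m, mul_mem hθ (Ma_le_M (by omega) hm),
      (mk_mul_Nn (Ma_le_Nn hm)).symm, rfl⟩ hy1 hov
  t := by
    intro x y z v v2 u hx hy hz hE1 hE2 hE3 hxy hyz
    obtain ⟨θ, hθ, rfl, rfl⟩ := hxy
    have hv := ov_mk hx
    have hv2 := ov_mk hy
    rw [act_mul, act_w_ea, map_neg, neg_neg] at hv2
    have hE2' : om v2.1 u.1 = 1 ∨ om v2.1 u.1 = -1 := hE2
    have hE3' : om v.1 u.1 = 1 ∨ om v.1 u.1 = -1 := hE3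
    -- u' = θ⁻¹ u
    have hmem : act θ⁻¹ u.1 ∈ Vs s (h + 1) := M_Vs (inv_mem hθ) u.2
    have ha : om (ea s) (act θ⁻¹ u.1) = 1 ∨ om (ea s) (act θ⁻¹ u.1) = -1 := by
      have e1 : om (act θ (ea s)) u.1 = om (ea s) (act θ⁻¹ u.1) := by
        rw [← M_om hθ (ea s) (act θ⁻¹ u.1), act_act_inv]
      rw [← e1]
      rcases hv with hv | hv
      · rwa [hv] at hE3'
      · rw [hv, map_neg, AddMonoidHom.neg_apply] at hE3'
        omega
    have hb : om (eb s) (act θ⁻¹ u.1) = 1 ∨ om (eb s) (act θ⁻¹ u.1) = -1 := by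
      have e1 : om (act θ (eb s)) u.1 = om (eb s) (act θ⁻¹ u.1) := by
        rw [← M_om hθ (eb s) (act θ⁻¹ u.1), act_act_inv]
      rw [← e1]
      rcases hv2 with hv2 | hv2
      · rw [hv2, map_neg, AddMonoidHom.neg_apply] at hE2'
        omega
      · rwa [hv2] at hE2'
    -- choose the sign
    obtain ⟨ε, hε, hmem', ha', hb'⟩ : ∃ u' : Lat, (u' = act θ⁻¹ u.1 ∨ u' = - act θ⁻¹ u.1) ∧
        u' ∈ Vs s (h + 1) ∧ om (ea s) u' = 1 ∧ (om (eb s) u' = 1 ∨ om (eb s) u' = -1) := by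
      rcases ha with ha | ha
      · exact ⟨_, Or.inl rfl, hmem, ha, hb⟩
      · refine ⟨_, Or.inr rfl, neg_mem hmem, by rw [map_neg, ha]; norm_num, ?_⟩
        rw [map_neg]; omega
    have hsplit := Vs_split hmem'
    rw [om_ea] at ha'
    rw [om_eb] at hb'
    rw [ha', one_smul] at hsplit
    have hc : ε (2 * s) = 1 ∨ ε (2 * s) = -1 := by omega
    obtain ⟨ψ, hψ, h1, h2, h3⟩ := tri_norm hF hθ hc hsplit
    have h4 : act ψ (ea s) = - act θ ε := by
      rw [h3]; congr 2; abel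
    have hov : ov s h (ψ : XX s h) u := by
      apply ov_of hψ
      rw [h4]
      rcases hε with hε | hε
      · right; rw [hε, act_act_inv, neg_neg]
      · left; rw [hε, map_neg, act_act_inv, neg_neg]
    have : (ψ : XX s h) = z := lift_unique hF h2 hyz hov hz
    rw [← this]
    exact h1

end Pool.Agent.Torelli
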