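import Pool.Agent.Torelli.E.E0

/-!
# Torelli / E / Nn : the subgroup `Nn s h`

`MJ s h = Ma s h * JJ s h`, `Nn s h = ⟨iota s⟩ * MJ s h`.
-/

set_option autoImplicit false

namespace Pool.Agent.Torelli

/-- `Ma s (h+1) * JJ s (h+1)` -/
def MJ (s h : ℕ) : Subgroup (MulAut F) where
  carrier := {x | ∃ m ∈ Ma s (h + 1), ∃ j ∈ JJ s (h + 1), x = m * j}
  one_mem' := ⟨1, one_mem _, 1, one_mem _, by simp⟩
  mul_mem' := by
    rintro x y ⟨m, hm, j, hj, rfl⟩ ⟨m', hm', j', hj', rfl⟩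
    refine ⟨m * m', mul_mem hm hm', m'⁻¹ * j * m' * j', mul_mem ?_ hj', by group⟩
    exact JJ_conj' (Ma_le_M (by omega) hm') hj
  inv_mem' := by
    rintro x ⟨m, hm, j, hj, rfl⟩
    refine ⟨m⁻¹, inv_mem hm, m * j⁻¹ * m⁻¹, ?_, by group⟩
    exact JJ_conj (Ma_le_M (by omega) hm) (inv_mem hj)

variable {s h : ℕ}

theorem mem_MJ {x : MulAut F} :
    x ∈ MJ s h ↔ ∃ m ∈ Ma s (h + 1), ∃ j ∈ JJ s (h + 1), x = m * j := Iff.rfl
theorem Ma_le_MJ : Ma s (h + 1) ≤ MJ s h := fun m hm => ⟨m, hm, 1, one_mem _, by simp⟩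
theorem JJ_le_MJ : JJ s (h + 1) ≤ MJ s h := fun j hj => ⟨1, one_mem _, j, hj, by simp⟩

theorem iota_conj_MJ {x : MulAut F} (hx : x ∈ MJ s h) : (iota s)⁻¹ * x * iota s ∈ MJ s h := by
  have hi : iota s ∈ M s (h + 1) := iota_mem_M le_rfl (by omega)
  obtain ⟨m, hm, j, hj, rfl⟩ := hx
  have e : (iota s)⁻¹ * (m * j) * iota s =
      ((iota s)⁻¹ * m * iota s) * ((iota s)⁻¹ * j * iota s) := by group
  rw [e]
  refine mul_mem ?_ (JJ_le_MJ (JJ_conj' hi hj))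
  have key : Ma s (h + 1) ≤ (MJ s h).comap (MulAut.conj (iota s)⁻¹).toMonoidHom := by
    conv_lhs => unfold Ma
    rw [Subgroup.closure_le]
    rintro x ((hx | rfl) | ⟨h2, rfl⟩)
    · change (iota s)⁻¹ * x * ((iota s)⁻¹)⁻¹ ∈ MJ s h
      have hx' : x ∈ M (s + 1) h := hx
      have e : x * iota s = iota s * x :=
        M_commute hx' (iota_mem s 1 le_rfl) (Or.inl (by omega))
      have e2 : (iota s)⁻¹ * x * ((iota s)⁻¹)⁻¹ = x := by
        rw [inv_inv, mul_assoc, e, inv_mul_cancel_left]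
      rw [e2]
      exact Ma_le_MJ (M_le_Ma s (h + 1) hx)
    · change (iota s)⁻¹ * Ta s * ((iota s)⁻¹)⁻¹ ∈ MJ s h
      have e2 : (iota s)⁻¹ * Ta s * ((iota s)⁻¹)⁻¹ = Ta s := by
        rw [inv_inv, mul_assoc, ← E_iota_Ta, inv_mul_cancel_left]
      rw [e2]
      exact Ma_le_MJ (Ta_mem_Ma s (h + 1))
    · change (iota s)⁻¹ * P s * ((iota s)⁻¹)⁻¹ ∈ MJ s h
      rw [inv_inv, E_iota_conj_P]
      exact mul_mem (JJ_le_MJ (DX_mem_JJ h2)) (inv_mem (Ma_le_MJ (P_mem_Ma h2)))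
  have := key hm
  change (iota s)⁻¹ * m * ((iota s)⁻¹)⁻¹ ∈ MJ s h at this
  rwa [inv_inv] at this

theorem iota_sq_mem_JJ (s h : ℕ) : iota s * iota s ∈ JJ s h := by
  rw [E_iota_sq]; exact inv_mem (TD_mem_JJ s h)

theorem iota_conj_MJ' {x : MulAut F} (hx : x ∈ MJ s h) : iota s * x * (iota s)⁻¹ ∈ MJ s h := by
  have h1 := iota_conj_MJ hx
  have h2 : iota s * iota s ∈ MJ s h := JJ_le_MJ (iota_sq_mem_JJ s _)
  have e : iota s * x * (iota s)⁻¹ =
      (iota s * iota s) * ((iota s)⁻¹ * x * iota s) * (iota s * iota s)⁻¹ := by group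
  rw [e]
  exact mul_mem (mul_mem h2 h1) (inv_mem h2)

/-- the subgroup `N` of part E (genus `h+1`) -/
def Nn (s h : ℕ) : Subgroup (MulAut F) where
  carrier := {x | x ∈ MJ s h ∨ ∃ y ∈ MJ s h, x = iota s * y}
  one_mem' := Or.inl (one_mem _)
  mul_mem' := by
    rintro x y (hx | ⟨x, hx, rfl⟩) (hy | ⟨y, hy, rfl⟩)
    · exact Or.inl (mul_mem hx hy)
    · refine Or.inr ⟨(iota s)⁻¹ * x * iota s * y, mul_mem (iota_conj_MJ hx) hy, by group⟩
    · exact Or.inr ⟨x * y, mul_mem hx hy, by group⟩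
    · refine Or.inl ?_
      have e : iota s * x * (iota s * y) =
          (iota s * iota s) * ((iota s)⁻¹ * x * iota s) * y := by group
      rw [e]
      exact mul_mem (mul_mem (JJ_le_MJ (iota_sq_mem_JJ s _)) (iota_conj_MJ hx)) hy
  inv_mem' := by
    rintro x (hx | ⟨x, hx, rfl⟩)
    · exact Or.inl (inv_mem hx)
    · refine Or.inr ⟨(iota s * iota s)⁻¹ * (iota s * x⁻¹ * (iota s)⁻¹), ?_, by group⟩
      exact mul_mem (inv_mem (JJ_le_MJ (iota_sq_mem_JJ s _))) (iota_conj_MJ' (inv_mem hx))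

theorem MJ_le_Nn : MJ s h ≤ Nn s h := fun _ hx => Or.inl hx
theorem Ma_le_Nn : Ma s (h + 1) ≤ Nn s h := Ma_le_MJ.trans MJ_le_Nn
theorem JJ_le_Nn : JJ s (h + 1) ≤ Nn s h := JJ_le_MJ.trans MJ_le_Nn
theorem iota_mem_Nn : iota s ∈ Nn s h := Or.inr ⟨1, one_mem _, by simp⟩
theorem M_le_Nn : M (s + 1) h ≤ Nn s h := fun _ hx => Ma_le_Nn (M_le_Ma s (h + 1) hx)
theorem Ta_mem_Nn : Ta s ∈ Nn s h := Ma_le_Nn (Ta_mem_Ma s (h + 1))

theorem Nn_le_M : Nn s h ≤ M s (h + 1) := by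
  have h1 : MJ s h ≤ M s (h + 1) := by
    rintro x ⟨m, hm, j, hj, rfl⟩
    exact mul_mem (Ma_le_M (by omega) hm) (JJ_le_M (by omega) hj)
  rintro x (hx | ⟨x, hx, rfl⟩)
  · exact h1 hx
  · exact mul_mem (iota_mem_M le_rfl (by omega)) (h1 hx)

theorem MJ_fix_ea {x : MulAut F} (hx : x ∈ MJ s h) : act x (ea s) = ea s := by
  obtain ⟨m, hm, j, hj, rfl⟩ := hx
  rw [act_mul, IA_act (JJ_le_Tor (by omega) hj).2, Ma_fix_ea hm]

/-- elements of `Nn` map `ea s` to `± ea s` -/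
theorem Nn_ea {x : MulAut F} (hx : x ∈ Nn s h) : act x (ea s) = ea s ∨ act x (ea s) = - ea s := by
  rcases hx with hx | ⟨x, hx, rfl⟩
  · exact Or.inl (MJ_fix_ea hx)
  · right; rw [act_mul, MJ_fix_ea hx, act_iota_ea]

/-- `Nn ⊓ Tor ≤ JJ` -/
theorem Nn_Tor (hF : FIn s (h + 1)) (hind : Tor (s + 1) h ≤ JJ s (h + 1)) {x : MulAut F}
    (hx : x ∈ Nn s h) (hI : x ∈ IA) : x ∈ JJ s (h + 1) := by
  rcases hx with ⟨m, hm, j, hj, rfl⟩ | ⟨y, hy, rfl⟩
  · have h1 : m ∈ IA := by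
      have h2 : j ∈ IA := (JJ_le_Tor (by omega) hj).2
      have h3 : m * j * j⁻¹ ∈ IA := IA.mul_mem hI (IA.inv_mem h2)
      rwa [mul_inv_cancel_right] at h3
    exact mul_mem (Ma_IA hF (by omega) hind hm h1) hj
  · exfalso
    have h1 := IA_act hI (ea s)
    rw [act_mul, MJ_fix_ea hy, act_iota_ea] at h1
    have h2 := DFunLike.congr_fun h1 (2 * s)
    rw [Finsupp.neg_apply, ea_even, if_pos rfl] at h2
    omega

/-- elements of `MJ` fixing `± eb s` -/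
theorem MJ_stab (hF : FIn s (h + 1)) {x : MulAut F} (hx : x ∈ MJ s h)
    (he : act x (eb s) = eb s ∨ act x (eb s) = - eb s) :
    ∃ j ∈ JJ s (h + 1), ∃ γ ∈ M (s + 1) h, x = j * γ := by
  obtain ⟨m, hm, j, hj, rfl⟩ := hx
  have hjI : ∀ v, act j v = v := IA_act (JJ_le_Tor (by omega) hj).2
  rw [act_mul, hjI] at he
  have hmM := Ma_le_M (s := s) (h := h + 1) (by omega) hm
  have h1 : act m (eb s) = eb s := by
    rcases he with he | he
    · exact he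
    · exfalso
      have h2 := M_om hmM (ea s) (eb s)
      rw [Ma_fix_ea hm, he, map_neg, om_ea_eb, if_pos rfl] at h2
      omega
  obtain ⟨j', hj', γ, hγ, rfl⟩ := Ma_stab hF (by omega) hm h1
  have hγM : γ ∈ M s (h + 1) := M_mono (by omega) (by omega) (show γ ∈ M (s + 1) h from hγ)
  refine ⟨j' * (γ * j * γ⁻¹), mul_mem hj' (JJ_conj hγM hj), γ, hγ, by group⟩

/-- `w⁻¹ n w ∈ Nn` for `n ∈ Nn` fixing `± eb s` -/
theorem Nn_conj_w (hF : FIn s (h + 1)) {x : MulAut F} (hx : x ∈ Nn s h)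
    (he : act x (eb s) = eb s ∨ act x (eb s) = - eb s) : (w s)⁻¹ * x * w s ∈ Nn s h := by
  have hw : w s ∈ M s (h + 1) := w_mem_M le_rfl (by omega)
  have key : ∀ y ∈ MJ s h, (act y (eb s) = eb s ∨ act y (eb s) = - eb s) →
      (w s)⁻¹ * y * w s ∈ MJ s h := by
    intro y hy he
    obtain ⟨j, hj, γ, hγ, rfl⟩ := MJ_stab hF hy he
    have e1 : γ * w s = w s * γ := M_commute hγ (w_mem s 1 le_rfl) (Or.inl (by omega))
    have e : (w s)⁻¹ * (j * γ) * w s = ((w s)⁻¹ * j * w s) * γ := by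
      rw [mul_assoc, mul_assoc, e1]; group
    rw [e]
    exact mul_mem (JJ_le_MJ (JJ_conj' hw hj)) (Ma_le_MJ (M_le_Ma s (h + 1) hγ))
  rcases hx with hx | ⟨y, hy, rfl⟩
  · exact Or.inl (key x hx he)
  · right
    refine ⟨(w s)⁻¹ * y * w s, key y hy ?_, ?_⟩
    · rw [act_mul] at he
      rcases he with he | he
      · right
        rw [act_eq_iff] at he
        rw [he, eq_comm, ← act_eq_iff, map_neg, act_iota_eb, neg_neg]
      · left
        rw [act_eq_iff] at he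
        rw [he, eq_comm, ← act_eq_iff, act_iota_eb]
    · have := E_iota_w s
      have e : (w s)⁻¹ * (iota s * y) * w s = (w s)⁻¹ * (iota s * w s) * ((w s)⁻¹ * y * w s) := by
        group
      rw [e, this]; group

end Pool.Agent.Torelli
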